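import Pool.Agent.Results.MP_cd906c_nt.ExactDensityTotallyReal
import Pool.Agent.N322.X15Old
import Pool.Agent.N869.ZE.A.Fin

/-!
# The weak conjecture of Birch and Swinnerton-Dyer for the twists of `X_0(15)` by the divisors of a
# fixed number

For a squarefree `n ≡ 23, 47 mod 60` let `E_n : y² = x³ - 12987 n² x + 263466 n³` be the twist by `-n` of
`y² = x (x + 9) (x - 16)`, the curve `X_0(15)`, which has no complex multiplication. In the family of all
`n` ordered by size the weak conjecture holds with both sides false for the proportion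
`η = (1 - 1/2) (1 - 1/4) (1 - 1/8) ⋯ = 0.2888…` of the `n` (`X015Twists`). Here we FIX a number `f`,
squarefree and prime to `30`, and consider only the curves `E_n` with `n` a DIVISOR of `f`, a finite family
of about `2 ^ ω(f) / 8` curves with good reduction outside `30 f`. We prove that almost every `f`
(natural density one) sees the same law in its own divisors:

* the proportion of the divisors `n ≡ 23, 47 mod 60` of `f` with `E_n(ℚ)` finite, `L(E_n, 1) ≠ 0` and
  `Ш(E_n/ℚ)[2] = 0` is as close as we like to `η` (the case `k = 0`);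
* jointly: for the tuples `(n; d_1, …, d_k)` of divisors of `f`, `n` as before and prime to the `d_i`,
  `d_i ≡ 1 mod 12`, `d_i ≡ ± 1 mod 5`, independent modulo squares, and for any set `𝒯` of subsets `T` of
  `{1, …, k}`, the proportion of the tuples such that for all `T` in `𝒯` the curve `E_N`, `N` the
  squarefree part of `n ∏_{i ∈ T} d_i`, has this property, is as close as we like to `η ^ #𝒯`. So all
  the `2 ^ k` twists are asymptotically independent already inside the divisors of one `f`.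

The result on the average over all `n` says nothing on the divisors of a single `f`, of which
there are only about `(log X) ^ (log 2)` for almost all `f ≤ X`. That the proportion for almost every
single `f` is the same number is a special feature: for the curve `X_0(49)` the corresponding proportion
depends on `f` and has a limit law that is not concentrated at a point
(`MP_4a9ea6_nt/UniformLaw`).

Proof. By `X015Twists` and its sources the condition is that `ℚ(√-N)` has no ideal class of order four.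
A tuple of divisors of `f` is a colouring of the prime divisors of `f`. The proportion of the good
colourings is a random variable in `f`; its first and second moments are averages over all `f` and all
colourings of joint events for families of systems of colours. For a fixed random colouring of all the
primes these joint laws follow from the large sieve for quadratic symbols in boxes of large primes with
fixed labels (the colour, the residues modulo 60) and an exact count of the labellings for which the Rédei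
matrices of all the systems have rank as large as possible
(`Pool/Agent/N869/ZE`, parts by helpers 9, 123, 196, 322, 475, 814).
-/

set_option autoImplicit false

namespace Pool.Agent.Results.MP_8b7eba_nt.DivisorsX15

open Pool.Agent.Results.MP_cd906c_nt.ExactDensityTotallyReal (Twist Disc Independent eta HasDensity)
open Pool.Agent.N322.X15Old (E RankZeroShaTwo WeakRankZero NoOrderFour)

/-- The tuples `(n; d_1, …, d_k)` of divisors of `f`: `n ≡ 23, 47 mod 60` is prime to the `d_i`, the `d_i` are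
`1` modulo `12` and `± 1` modulo `5`, no nonempty product of some of them is a square. -/
def tuples (k f : ℕ) : Set (ℕ × (Fin k → ℕ)) :=
  {x | Twist x.1 ∧ (∀ i, Disc (x.2 i)) ∧ Independent x.2 ∧ (∀ i, x.1.Coprime (x.2 i)) ∧
    x.1 ∣ f ∧ ∀ i, x.2 i ∣ f}

/-- For all `T` in `𝒯` and the squarefree part `N` of `n ∏_{i ∈ T} d_i`: `E_N(ℚ)` is finite,
`Ш(E_N/ℚ)[2] = 0`, and the weak conjecture holds for `E_N` with `L(E_N, 1) ≠ 0`. -/
def Good {k : ℕ} (𝒯 : Finset (Finset (Fin k))) (x : ℕ × (Fin k → ℕ)) : Prop :=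
  ∀ T ∈ 𝒯, ∀ N c : ℕ, Squarefree N → c ≠ 0 → x.1 * ∏ i ∈ T, x.2 i = N * c ^ 2 →
    RankZeroShaTwo N ∧ WeakRankZero N

/-- There are tuples of divisors of `f`, finitely many, and the proportion of those which are good for
`𝒯` differs from `q` by at most `δ`. -/
def Close {k : ℕ} (𝒯 : Finset (Finset (Fin k))) (q δ : ℝ) (f : ℕ) : Prop :=
  (tuples k f).Finite ∧ 0 < (tuples k f).ncard ∧
    |({x ∈ tuples k f | Good 𝒯 x}.ncard : ℝ) / ((tuples k f).ncard : ℝ) - q| ≤ δ

section proof

open Filter Topology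
open Pool.Agent.N869.ZE.A
open Pool.Agent.N969.P15 (Qc)
open Pool.Agent.N856.JL (sfp sfp_spec sq_uniq)

lemma fam_eq {k f : ℕ} (hf : Squarefree f) : famP false k f = tuples k f := by
  ext x
  constructor
  · rintro ⟨h1, h2, h3, h4, h5, -⟩
    refine ⟨h1, h2, h3, h4, ?_, fun i => ?_⟩
    · rw [← Nat.prod_primeFactors_of_squarefree h1.1]
      rw [← Nat.prod_primeFactors_of_squarefree hf]
      refine Finset.prod_dvd_prod_of_subset _ _ _ fun p hp => ?_
      have hp' := Nat.mem_primeFactors.1 hp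
      exact Nat.mem_primeFactors.2 ⟨hp'.1, h5 p hp'.1 (Or.inl hp'.2.1), hf.ne_zero⟩
    · rw [← Nat.prod_primeFactors_of_squarefree (h2 i).1]
      rw [← Nat.prod_primeFactors_of_squarefree hf]
      refine Finset.prod_dvd_prod_of_subset _ _ _ fun p hp => ?_
      have hp' := Nat.mem_primeFactors.1 hp
      exact Nat.mem_primeFactors.2 ⟨hp'.1, h5 p hp'.1 (Or.inr ⟨i, hp'.2.1⟩), hf.ne_zero⟩
  · rintro ⟨h1, h2, h3, h4, h5, h6⟩
    refine ⟨h1, h2, h3, h4, fun p _ hp => ?_, fun h => by cases h⟩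
    rcases hp with hp | ⟨i, hp⟩
    · exact hp.trans h5
    · exact hp.trans (h6 i)

lemma family {n : ℕ} (h : Twist n) : Pool.Agent.N322.X15Old.Family n := by
  obtain ⟨h1, h2⟩ := h
  refine ⟨Or.inl ⟨h1, by omega⟩, by omega, by omega⟩

/-- the criterion -/
lemma crit {n : ℕ} (h : Twist n) : (RankZeroShaTwo n ∧ WeakRankZero n) ↔ Qc n := by
  have h1 := Pool.Agent.N322.X15Old.rank_iff (family h)
  have ho : n % 2 = 1 := by
    obtain ⟨-, h2⟩ := h
    omega
  have h2 : Pool.Agent.N916.TE.Go n ↔ Qc n :=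
    ⟨fun h3 => h3.1 ho, fun h3 => ⟨fun _ => h3, fun h4 => by omega⟩⟩
  constructor
  · rintro ⟨h3, -⟩
    exact h2.1 (h1.1 h3)
  · intro h3
    exact ⟨h1.2 (h2.2 h3), Pool.Agent.N322.X15Old.weak (family h) (h2.2 h3)⟩

lemma prod_ne {k : ℕ} {x : ℕ × (Fin k → ℕ)} (h2 : ∀ i, Disc (x.2 i))
    (T : Finset (Fin k)) : ∏ i ∈ T, x.2 i ≠ 0 :=
  Finset.prod_ne_zero_iff.2 fun i _ => (h2 i).1.ne_zero

/-- the squarefree representative -/
lemma rep {k : ℕ} {x : ℕ × (Fin k → ℕ)} (h1 : Twist x.1) (h2 : ∀ i, Disc (x.2 i))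
    (h4 : ∀ i, x.1.Coprime (x.2 i)) (T : Finset (Fin k)) :
    Twist (x.1 * sfp (∏ i ∈ T, x.2 i)) ∧ ∃ s : ℕ, s ≠ 0 ∧
      x.1 * ∏ i ∈ T, x.2 i = x.1 * sfp (∏ i ∈ T, x.2 i) * s ^ 2 := by
  obtain ⟨g1, s, hs, g2⟩ := Pool.Agent.N856.JL.Res.rep (d := x.2) (n := x.1) ⟨h2, h1, h4⟩ T
  refine ⟨g1, s, hs, ?_⟩
  rw [mul_assoc, ← g2]

lemma good_iff {k : ℕ} (𝒯 : Finset (Finset (Fin k))) {x : ℕ × (Fin k → ℕ)} (h1 : Twist x.1)
    (h2 : ∀ i, Disc (x.2 i)) (h4 : ∀ i, x.1.Coprime (x.2 i)) : Good 𝒯 x ↔ goodP 𝒯 x := by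
  refine forall_congr' fun T => forall_congr' fun _ => ?_
  obtain ⟨g1, s, hs, g2⟩ := rep h1 h2 h4 T
  constructor
  · intro h
    exact (crit g1).1 (h _ s g1.1 hs g2)
  · intro h N c hN hc e
    have : N = x.1 * sfp (∏ i ∈ T, x.2 i) := sq_uniq hN g1.1 hc hs (e.symm.trans g2)
    rw [this]
    exact (crit g1).2 h

/-- the class groups -/
lemma class_iff {n : ℕ} (h : Twist n) (K : Type) [Field K] [NumberField K]
    (h6 : Module.finrank ℚ K = 2) (h7 : ∃ s : K, s ^ 2 = -(n : K)) :
    (RankZeroShaTwo n ∧ WeakRankZero n) ↔ NoOrderFour K := by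
  have hm : Pool.Agent.N322.X15Old.m n = n := if_pos (by obtain ⟨-, h2⟩ := h; omega)
  have h8 := Pool.Agent.N322.X15Old.class_iff (family h) K h6 (by rw [hm]; exact h7)
  have h9 := Pool.Agent.N322.X15Old.rank_iff (family h)
  constructor
  · rintro ⟨h3, -⟩
    exact h8.2 (h9.1 h3)
  · intro h3
    exact ⟨h9.2 (h8.1 h3), Pool.Agent.N322.X15Old.weak (family h) (h8.1 h3)⟩

lemma dens_of {P Q Q' : ℕ → Prop} (hQ : ∀ m, P m → (Q m ↔ Q' m))
    (h : ∀ (i1 : DecidablePred fun f => P f ∧ Q f) (i2 : DecidablePred P),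
      Tendsto (fun X : ℕ => ((@Finset.filter ℕ (fun f => P f ∧ Q f) i1 (Finset.Icc 1 X)).card : ℝ) /
        ((@Finset.filter ℕ P i2 (Finset.Icc 1 X)).card : ℝ)) atTop (𝓝 1)) :
    HasDensity P Q' 1 := by
  have e : (fun m => P m ∧ Q m) = fun m => P m ∧ Q' m :=
    funext fun m => propext (and_congr_right fun h => hQ m h)
  unfold HasDensity Pool.Agent.Results.MP_cd906c_nt.ExactDensityTotallyReal.count
  rw [← e]
  exact h _ _

lemma key (k : ℕ) (𝒯 : Finset (Finset (Fin k))) (δ : ℝ) (hδ : 0 < δ) :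
    HasDensity (fun f => Squarefree f ∧ f.Coprime 30) (Close 𝒯 (eta ^ 𝒯.card) δ) 1 := by
  refine dens_of (Q := fun f => (famP false k f).Finite ∧ 0 < (famP false k f).ncard ∧
    |({x ∈ famP false k f | goodP 𝒯 x}.ncard : ℝ) / ((famP false k f).ncard : ℝ) -
      Pool.Agent.N869.QT.L.c2 ^ 𝒯.card| ≤ δ) ?_ ?_
  · intro f hf
    have e : {x ∈ famP false k f | goodP 𝒯 x} = {x ∈ tuples k f | Good 𝒯 x} := by
      rw [fam_eq hf.1]
      ext x
      refine and_congr_right fun hx => ?_
      exact (good_iff 𝒯 hx.1 hx.2.1 hx.2.2.2.1).symm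
    unfold Close
    rw [e, fam_eq hf.1]
    exact Iff.rfl
  · exact fun i1 i2 => pairs c2_bd t_AK Pool.Agent.N322.ZE.t_SQ2 t_M (fun h => by cases h) 𝒯 hδ
      i1 i2

lemma single (δ : ℝ) (hδ : 0 < δ) : HasDensity (fun f => Squarefree f ∧ f.Coprime 30)
    (fun f => 0 < {n | Twist n ∧ n ∣ f}.ncard ∧
      |({n | (Twist n ∧ n ∣ f) ∧ RankZeroShaTwo n ∧ WeakRankZero n}.ncard : ℝ) /
        ({n | Twist n ∧ n ∣ f}.ncard : ℝ) - eta| ≤ δ) 1 := by
  have h0 := key 0 Finset.univ δ hδ
  have hone : (Finset.univ : Finset (Finset (Fin 0))).card = 1 := by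
    rw [Finset.card_univ, Fintype.card_finset, Fintype.card_fin, pow_zero]
  rw [hone, pow_one] at h0
  have hQ : ∀ f, (Squarefree f ∧ f.Coprime 30) → (Close (Finset.univ : Finset (Finset (Fin 0))) eta δ f ↔
      (0 < {n | Twist n ∧ n ∣ f}.ncard ∧
        |({n | (Twist n ∧ n ∣ f) ∧ RankZeroShaTwo n ∧ WeakRankZero n}.ncard : ℝ) /
          ({n | Twist n ∧ n ∣ f}.ncard : ℝ) - eta| ≤ δ)) := by
    intro f hf
    have hinj : Function.Injective fun n : ℕ => ((n, fun i : Fin 0 => i.elim0) : ℕ × (Fin 0 → ℕ)) :=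
      fun a b h => congrArg Prod.fst h
    have h1 : ∀ x : ℕ × (Fin 0 → ℕ), x = (x.1, fun i : Fin 0 => i.elim0) := fun x =>
      Prod.ext rfl (funext fun i => i.elim0)
    have e1 : tuples 0 f = (fun n : ℕ => ((n, fun i : Fin 0 => i.elim0) : ℕ × (Fin 0 → ℕ))) ''
        {n | Twist n ∧ n ∣ f} := by
      ext x
      rw [Set.mem_image]
      constructor
      · rintro ⟨g1, -, -, -, g2, -⟩
        exact ⟨x.1, ⟨g1, g2⟩, (h1 x).symm⟩
      · rintro ⟨n, ⟨g1, g2⟩, rfl⟩
        exact ⟨g1, fun i => i.elim0, fun T hT => by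
          obtain ⟨i, -⟩ := hT
          exact i.elim0, fun i => i.elim0, g2, fun i => i.elim0⟩
    have e2 : {x ∈ tuples 0 f | Good Finset.univ x} =
        (fun n : ℕ => ((n, fun i : Fin 0 => i.elim0) : ℕ × (Fin 0 → ℕ))) ''
        {n | (Twist n ∧ n ∣ f) ∧ RankZeroShaTwo n ∧ WeakRankZero n} := by
      ext x
      rw [Set.mem_image]
      constructor
      · rintro ⟨g0, g3⟩
        have g3' := g3 ∅ (Finset.mem_univ _) x.1 1 g0.1.1 one_ne_zero
          (by rw [Finset.prod_empty, one_pow])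
        exact ⟨x.1, ⟨⟨g0.1, g0.2.2.2.2.1⟩, g3'⟩, (h1 x).symm⟩
      · rintro ⟨n, ⟨⟨g1, g2⟩, g3⟩, rfl⟩
        refine ⟨⟨g1, fun i => i.elim0, fun T hT => by
          obtain ⟨i, -⟩ := hT
          exact i.elim0, fun i => i.elim0, g2, fun i => i.elim0⟩, fun T _ N c hN hc e => ?_⟩
        have hT : T = ∅ := Finset.eq_empty_of_isEmpty T
        subst hT
        rw [Finset.prod_empty] at e
        have : N = n := sq_uniq hN g1.1 hc one_ne_zero (e.symm.trans (by simp))
        rw [this]
        exact g3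
    unfold Close
    rw [e2, e1, Set.ncard_image_of_injective _ hinj, Set.ncard_image_of_injective _ hinj]
    constructor
    · rintro ⟨-, g⟩
      exact g
    · intro g
      exact ⟨Set.Finite.image _ (Set.finite_of_ncard_pos g.1), g⟩
  have e : (fun m => (Squarefree m ∧ m.Coprime 30) ∧
      Close (Finset.univ : Finset (Finset (Fin 0))) eta δ m) = fun m =>
      (Squarefree m ∧ m.Coprime 30) ∧ (0 < {n | Twist n ∧ n ∣ m}.ncard ∧
        |({n | (Twist n ∧ n ∣ m) ∧ RankZeroShaTwo n ∧ WeakRankZero n}.ncard : ℝ) /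
          ({n | Twist n ∧ n ∣ m}.ncard : ℝ) - eta| ≤ δ) :=
    funext fun m => propext (and_congr_right fun h => hQ m h)
  unfold HasDensity at h0 ⊢
  rw [← e]
  exact h0

end proof

/-- **Main theorem.**
(1) Let `n ≡ 23, 47 mod 60` be squarefree. Then `E_n(ℚ)` is finite, `Ш(E_n/ℚ)[2] = 0` and the weak
conjecture holds for `E_n` with `L(E_n, 1) ≠ 0` if and only if `ℚ(√-n)` has no ideal class of order four.
(2) For every `k ≥ 0`, every set `𝒯` of subsets of `{1, …, k}` and every `δ > 0`, for almost all squarefree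
`f` prime to `30` (natural density one) the proportion of the tuples `(n; d_1, …, d_k)` of
divisors of `f` which are good for `𝒯` differs from `η ^ #𝒯` by at most `δ`.
(3) In particular, for almost all `f` the proportion of the divisors `n ≡ 23, 47 mod 60` of `f` with
`E_n(ℚ)` finite, `Ш(E_n/ℚ)[2] = 0`, `L(E_n, 1) ≠ 0` differs from `η = 0.288…` by at most `δ`. -/
theorem result :
    (∀ n : ℕ, Twist n → ∀ (K : Type) [Field K] [NumberField K], Module.finrank ℚ K = 2 →
      (∃ s : K, s ^ 2 = -(n : K)) → ((RankZeroShaTwo n ∧ WeakRankZero n) ↔ NoOrderFour K)) ∧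
    (∀ (k : ℕ) (𝒯 : Finset (Finset (Fin k))) (δ : ℝ), 0 < δ →
      HasDensity (fun f => Squarefree f ∧ f.Coprime 30) (Close 𝒯 (eta ^ 𝒯.card) δ) 1) ∧
    (∀ δ : ℝ, 0 < δ → HasDensity (fun f => Squarefree f ∧ f.Coprime 30)
      (fun f => 0 < {n | Twist n ∧ n ∣ f}.ncard ∧
        |({n | (Twist n ∧ n ∣ f) ∧ RankZeroShaTwo n ∧ WeakRankZero n}.ncard : ℝ) /
          ({n | Twist n ∧ n ∣ f}.ncard : ℝ) - eta| ≤ δ) 1) ∧
    0.2887 < eta ∧ eta < 0.2889 := by
  refine ⟨fun n hn K _ _ h6 h7 => class_iff hn K h6 h7, key, fun δ hδ => ?_,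
    Pool.Agent.Results.MP_cd906c_nt.ExactDensityTotallyReal.result.2.2.2.2.1,
    Pool.Agent.Results.MP_cd906c_nt.ExactDensityTotallyReal.result.2.2.2.2.2⟩
  exact single δ hδ

end Pool.Agent.Results.MP_8b7eba_nt.DivisorsX15
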