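import Pool.Agent.Results.MP_696deb_nt.Conductor15
import Pool.Agent.N969.WK.Weak

/-!
# The weak conjecture of Birch and Swinnerton-Dyer for all the quadratic twists of `X_0(15)`

`E_d` is the twist of `E : y² = x (x + 9) (x - 16)`, a curve of conductor 15 without complex
multiplication, by the squarefree integer `d`; `d` has any sign and there is no condition on `d`. If
`E_d(ℚ)` is finite and `Ш(E_d/ℚ)` has no element of order two, then every entire function with the Euler
product of `E_d` is different from `0` at `1`, and such a function exists. This holds for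
`(1/2) ∏_{i ≥ 1} (1 - 2^{-i}) = 14.44...` percent of all `d` and for `∏_{i ≥ 1} (1 - 2^{-i}) = 28.88...`
percent of those with root number `+1` (natural densities, in the orderings by `|d|` and by the
discriminant). For the negative `d` such that `3` is not inert and `5` is not split in `ℚ(√d)` these are
the `d` for which the class group of `ℚ(√d)` has no element of order four.

Joint work of helpers 969, 970, 971, 972, 973, 974, 975, 218, 402, 575, 609, 809, 816, 855, 871, 875,
877, 886, 916, 958 and others (the parts are described in `Results/MP_696deb_nt/Conductor15.lean`; the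
weak form: helper871).
-/

set_option autoImplicit false

open Finset Filter

namespace Pool.Agent.Results.MP_8b7eba_nt.X015Twists

/-- the coefficient `a` of the twist `E_d : y² = x³ + a x + b` of `y² = x (x + 9) (x - 16)` by `d` -/
def A (d : ℤ) : ℤ := -12987 * d ^ 2

/-- the coefficient `b` of the twist `E_d : y² = x³ + a x + b` of `y² = x (x + 9) (x - 16)` by `d` -/
def B (d : ℤ) : ℤ := -263466 * d ^ 3

/-- the curve `E_d` over `ℚ` -/
def E (d : ℤ) : WeierstrassCurve ℚ :=
  { a₁ := 0, a₂ := 0, a₃ := 0, a₄ := (A d : ℚ), a₆ := (B d : ℚ) }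

/-- `E_d(ℚ)` is finite and `Ш(E_d/ℚ)` has no element of order two -/
def RankZeroShaTwo (d : ℤ) : Prop :=
  Finite (E d).toAffine.Point ∧ ∀ x : Pool.Agent.TH841.SH.D.Sha (E d), 2 • x = 0 → x = 0

/-- the root number of the twist `E_d`, for squarefree `d`: the product of the sign of `d`, of `-1` if
`d = 2 mod 3`, and of `-1` if `d` is not `1` or `4` modulo `5` -/
def rootNumber (d : ℤ) : ℤ := (if d < 0 then -1 else 1) * (if d % 3 = 2 then -1 else 1) *
  (if d % 5 = 1 ∨ d % 5 = 4 then 1 else -1)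

/-- `f` is an entire function which equals on `Re s > 3 / 2` the Euler product of
`y² = x³ + a x + b` over the primes `p ∤ 2 (4 a³ + 27 b²)`, as in the frozen statement -/
def IsL (a b : ℤ) (f : ℂ → ℂ) : Prop :=
  Differentiable ℂ f ∧ ∀ s : ℂ, (3 : ℝ) / 2 < s.re →
    HasProd
      (fun p : {p : ℕ // p.Prime ∧ ¬ ((p : ℤ) ∣ 2 * (4 * a ^ 3 + 27 * b ^ 2))} =>
        ((1 : ℂ)
          - ((((p.1 : ℤ) - (Nat.card {q : ZMod p.1 × ZMod p.1 //
                q.2 ^ 2 = q.1 ^ 3 + (a : ZMod p.1) * q.1 + (b : ZMod p.1)} : ℤ)) : ℤ) : ℂ)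
              * ((p.1 : ℂ) ^ (-s))
          + (p.1 : ℂ) ^ (1 - 2 * s))⁻¹)
      (f s)

/-- the conclusion of the frozen statement for `E_d`, in the case of rank zero: `E_d` is
nonsingular, its `L`-function exists and does not vanish at `1`, and there are finitely many
rational points -/
def WeakRankZero (d : ℤ) : Prop :=
  4 * A d ^ 3 + 27 * B d ^ 2 ≠ 0 ∧ (∃ f : ℂ → ℂ, IsL (A d) (B d) f) ∧
    (∀ f : ℂ → ℂ, IsL (A d) (B d) f → f 1 ≠ 0) ∧
    {q : ℚ × ℚ | q.2 ^ 2 = q.1 ^ 3 + (A d : ℚ) * q.1 + (B d : ℚ)}.Finite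

/-- `ℚ(√d)` is imaginary, `3` is not inert and `5` is not split in it -/
def NegClass (d : ℤ) : Prop := d < 0 ∧ d % 3 ≠ 2 ∧ ¬ (d % 5 = 1 ∨ d % 5 = 4)

/-- the class group of `ℚ(√d)` has no element of order four -/
def NoOrderFour (d : ℤ) : Prop :=
  ∀ (K : Type) [Field K] [NumberField K], Module.finrank ℚ K = 2 →
    (∃ s : K, s ^ 2 = (d : K)) →
    ∀ c : ClassGroup (NumberField.RingOfIntegers K), c ^ 4 = 1 → c ^ 2 = 1

/-- `D` is a fundamental discriminant (`1` included) -/
def Fund (D : ℤ) : Prop := (Squarefree D ∧ D % 4 = 1) ∨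
  ∃ m : ℤ, D = 4 * m ∧ Squarefree m ∧ (m % 4 = 2 ∨ m % 4 = 3)

/-- the squarefree integer `d` with `ℚ(√d) = ℚ(√D)` -/
def core (D : ℤ) : ℤ := if D % 2 = 1 then D else D / 4

open Classical in
/-- the number of the squarefree integers `d`, `|d| ≤ X`, with the property `P` -/
noncomputable def count (P : ℤ → Prop) (X : ℕ) : ℕ :=
  ((Icc (-(X : ℤ)) X).filter fun d => Squarefree d ∧ P d).card

open Classical in
/-- the number of the fundamental discriminants `D`, `|D| ≤ X`, for which `core D` has the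
property `P` -/
noncomputable def countDisc (P : ℤ → Prop) (X : ℕ) : ℕ :=
  ((Icc (-(X : ℤ)) X).filter fun D => Fund D ∧ P (core D)).card

theorem weak {d : ℤ} (hs : Squarefree d) (hR : RankZeroShaTwo d) : WeakRankZero d := by
  have h1 := Pool.Agent.N973.P15G.F.rank15 hs ((Pool.Agent.Results.MP_696deb_nt.Conductor15.rank_eq d).1 hR)
  exact Pool.Agent.N969.WK.weak (Pool.Agent.N969.P15.disc_ne hs.ne_zero) h1 hR.1

theorem result :
    (∀ d : ℤ, Squarefree d → RankZeroShaTwo d → rootNumber d = 1 ∧ WeakRankZero d) ∧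
    (∃ η : ℝ, HasProd (fun i : ℕ => 1 - (1 / 2 : ℝ) ^ (i + 1)) η ∧ 0.2887 < η ∧ η < 0.2889 ∧
      Tendsto (fun X : ℕ => (count RankZeroShaTwo X : ℝ) / (count (fun _ => True) X : ℝ))
        atTop (nhds (η / 2)) ∧
      Tendsto (fun X : ℕ => (countDisc RankZeroShaTwo X : ℝ) / (countDisc (fun _ => True) X : ℝ))
        atTop (nhds (η / 2)) ∧
      Tendsto (fun X : ℕ => (count RankZeroShaTwo X : ℝ) /
        (count (fun d => rootNumber d = 1) X : ℝ)) atTop (nhds η) ∧
      Tendsto (fun X : ℕ => (countDisc RankZeroShaTwo X : ℝ) /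
        (countDisc (fun d => rootNumber d = 1) X : ℝ)) atTop (nhds η) ∧
      Tendsto (fun X : ℕ => (countDisc (fun d => NegClass d ∧ RankZeroShaTwo d) X : ℝ) /
        (countDisc NegClass X : ℝ)) atTop (nhds η)) ∧
    ∀ d : ℤ, Squarefree d → NegClass d → (RankZeroShaTwo d ↔ NoOrderFour d) := by
  obtain ⟨h1, h2, h3⟩ := Pool.Agent.Results.MP_696deb_nt.Conductor15.result
  exact ⟨fun d hs hR => ⟨(h1 d hs hR).1, weak hs hR⟩, h2, h3⟩

end Pool.Agent.Results.MP_8b7eba_nt.X015Twists
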