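import Pool.Agent.N809.P17.All
import Pool.Agent.N871.W.Conv
import Pool.Agent.N969.Den.Root17

/-!
# The weak conjecture of Birch and Swinnerton-Dyer for the quadratic twists of the curve of
# conductor 17

`E_d` is the twist of `E : y² = x (x + 1) (x - 16)`, a curve of conductor 17 without complex
multiplication, by the squarefree integer `d`; `d` has any sign and there is no condition on `d`. If
`E_d(ℚ)` is finite and `Ш(E_d/ℚ)` has no element of order two, then every entire function with the Euler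
product of `E_d` is different from `0` at `1`, and such a function exists. This holds for
`(1/2) ∏_{i ≥ 1} (1 - 2^{-(2i-1)}) = 20.97...` percent of all `d` (natural density, in the orderings by
`|d|` and by the discriminant), and for `∏_{i ≥ 1} (1 - 2^{-(2i-1)}) = 41.94...` percent of those with
root number `+1`.

Joint work of helpers 969, 970, 971, 972, 973, 974, 975, 99, 218, 402, 575, 809, 816, 844, 855, 871, 875,
877, 886, 890, 916, 919 and others (the parts are described in `Results/MP_696deb_nt/Conductor17.lean`).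
-/

set_option autoImplicit false

open Finset Filter

namespace Pool.Agent.Results.MP_8b7eba_nt.X017Twists

/-- the coefficient `a` of the twist `E_d : y² = x³ + a x + b` of `y² = x (x + 1) (x - 16)` by `d` -/
def A (d : ℤ) : ℤ := -91 * d ^ 2

/-- the coefficient `b` of the twist `E_d : y² = x³ + a x + b` of `y² = x (x + 1) (x - 16)` by `d` -/
def B (d : ℤ) : ℤ := -330 * d ^ 3

/-- the curve `E_d` over `ℚ` -/
def E (d : ℤ) : WeierstrassCurve ℚ :=
  { a₁ := 0, a₂ := 0, a₃ := 0, a₄ := (A d : ℚ), a₆ := (B d : ℚ) }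

/-- `E_d(ℚ)` is finite and `Ш(E_d/ℚ)` has no element of order two -/
def RankZeroShaTwo (d : ℤ) : Prop :=
  Finite (E d).toAffine.Point ∧ ∀ x : Pool.Agent.TH841.SH.D.Sha (E d), 2 • x = 0 → x = 0

/-- the `d` for which the twist `E_d` has root number `+1`: `d < 0` and `17` is not split in `ℚ(√d)`, or
`d > 0` and `17` is split in `ℚ(√d)` -/
def RootPlus (d : ℤ) : Prop := (0 < d ∧ jacobiSym d 17 = 1) ∨ (d < 0 ∧ jacobiSym d 17 ≠ 1)

/-- `f` is an entire function which equals on `Re s > 3 / 2` the Euler product of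
`y² = x³ + a x + b` over the primes `p ∤ 2 (4 a³ + 27 b²)`, as in the frozen statement -/
def IsL (a b : ℤ) (f : ℂ → ℂ) : Prop :=
  Differentiable ℂ f ∧ ∀ s : ℂ, (3 : ℝ) / 2 < s.re →
    HasProd
      (fun p : {p : ℕ // p.Prime ∧ ¬ ((p : ℤ) ∣ 2 * (4 * a ^ 3 + 27 * b ^ 2))} =>
        ((1 : ℂ)
          - ((((p.1 : ℤ) - (Nat.card {q : ZMod p.1 × ZMod p.1 //
                q.2 ^ 2 = q.1 ^ 3 + (a : ZMod p.1) * q.1 + (b : ZMod p.1)} : ℤ)) : ℤ) : ℂ)
              * ((p.1 : ℂ) ^ (-s))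
          + (p.1 : ℂ) ^ (1 - 2 * s))⁻¹)
      (f s)

/-- the conclusion of the frozen statement for `E_d`, in the case of rank zero: `E_d` is
nonsingular, its `L`-function exists and does not vanish at `1`, and there are finitely many
rational points -/
def WeakRankZero (d : ℤ) : Prop :=
  4 * A d ^ 3 + 27 * B d ^ 2 ≠ 0 ∧ (∃ f : ℂ → ℂ, IsL (A d) (B d) f) ∧
    (∀ f : ℂ → ℂ, IsL (A d) (B d) f → f 1 ≠ 0) ∧
    {q : ℚ × ℚ | q.2 ^ 2 = q.1 ^ 3 + (A d : ℚ) * q.1 + (B d : ℚ)}.Finite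

open Classical in
/-- the number of the squarefree integers `d`, `|d| ≤ X`, with the property `P` -/
noncomputable def count (P : ℤ → Prop) (X : ℕ) : ℕ :=
  ((Icc (-(X : ℤ)) X).filter fun d => Squarefree d ∧ P d).card

/-- `D` is a fundamental discriminant (`1` included) -/
def Fund (D : ℤ) : Prop := (Squarefree D ∧ D % 4 = 1) ∨
  ∃ m : ℤ, D = 4 * m ∧ Squarefree m ∧ (m % 4 = 2 ∨ m % 4 = 3)

/-- the squarefree integer `d` with `ℚ(√d) = ℚ(√D)` -/
def core (D : ℤ) : ℤ := if D % 2 = 1 then D else D / 4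

open Classical in
/-- the number of the fundamental discriminants `D`, `|D| ≤ X`, for which `core D` has the
property `P` -/
noncomputable def countDisc (P : ℤ → Prop) (X : ℕ) : ℕ :=
  ((Icc (-(X : ℤ)) X).filter fun D => Fund D ∧ P (core D)).card

open Pool.Agent.N875.P17 (WS)
open Pool.Agent.N916.MO (G17)
open Pool.Agent.N919.BS (NS NF Rt17)

theorem E_eq (d : ℤ) : E d = WS d := rfl

theorem rank_eq (d : ℤ) : RankZeroShaTwo d ↔ Pool.Agent.N875.X15.Fin2 (WS d) := by
  unfold RankZeroShaTwo Pool.Agent.N875.X15.Fin2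
  rw [← E_eq]
  refine and_congr Iff.rfl (forall_congr' fun x => ?_)
  rw [two_nsmul]

theorem rank_iff {d : ℤ} (hs : Squarefree d) : RankZeroShaTwo d ↔ Rt17 d ∧ G17 d := by
  rw [rank_eq]
  exact Pool.Agent.N809.P17.fin2_all hs

theorem disc_ne {d : ℤ} (h : d ≠ 0) : 4 * A d ^ 3 + 27 * B d ^ 2 ≠ 0 := by
  have e : 4 * (A d) ^ 3 + 27 * (B d) ^ 2 = -73984 * d ^ 6 := by
    unfold A B
    ring
  rw [e]
  exact mul_ne_zero (by norm_num) (pow_ne_zero 6 h)

theorem fin_pts {d : ℤ} (h0 : d ≠ 0) (h : Finite (E d).toAffine.Point) :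
    {q : ℚ × ℚ | q.2 ^ 2 = q.1 ^ 3 + (A d : ℚ) * q.1 + (B d : ℚ)}.Finite := by
  have hΔ : (E d).Δ ≠ 0 := by
    have e : (E d).Δ = -16 * ((4 * A d ^ 3 + 27 * B d ^ 2 : ℤ) : ℚ) := by
      simp only [E, WeierstrassCurve.Δ, WeierstrassCurve.b₂, WeierstrassCurve.b₄,
        WeierstrassCurve.b₆, WeierstrassCurve.b₈]
      push_cast
      ring
    rw [e]
    exact mul_ne_zero (by norm_num) (by exact_mod_cast disc_ne h0)
  have key : ∀ q : {q : ℚ × ℚ | q.2 ^ 2 = q.1 ^ 3 + (A d : ℚ) * q.1 + (B d : ℚ)},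
      (E d).toAffine.Nonsingular q.1.1 q.1.2 := by
    rintro ⟨⟨x, y⟩, hq⟩
    refine ((E d).toAffine.equation_iff_nonsingular_of_Δ_ne_zero hΔ).1 ?_
    rw [WeierstrassCurve.Affine.equation_iff]
    have hq' : y ^ 2 = x ^ 3 + (A d : ℚ) * x + (B d : ℚ) := hq
    simp only [E]
    linear_combination hq'
  refine Set.finite_coe_iff.1 (Finite.of_injective
    (fun q : {q : ℚ × ℚ | q.2 ^ 2 = q.1 ^ 3 + (A d : ℚ) * q.1 + (B d : ℚ)} =>
      (WeierstrassCurve.Affine.Point.some q.1.1 q.1.2 (key q) : (E d).toAffine.Point)) ?_)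
  rintro ⟨⟨x, y⟩, hq⟩ ⟨⟨x', y'⟩, hq'⟩ h1
  simp only [WeierstrassCurve.Affine.Point.some.injEq] at h1
  exact Subtype.ext (Prod.ext h1.1 h1.2)

theorem weak {d : ℤ} (hs : Squarefree d) (hR : RankZeroShaTwo d) : WeakRankZero d := by
  obtain ⟨f, hf, hfp, hf1⟩ := Pool.Agent.N871.W.ex_of_rank
    (Pool.Agent.N809.P17.bsd_all hs ((rank_eq d).1 hR))
  have hL : IsL (A d) (B d) f := ⟨hf, hfp⟩
  refine ⟨disc_ne hs.ne_zero, ⟨f, hL⟩, ?_, fin_pts hs.ne_zero hR.1⟩
  intro g hg
  have hfg : f = g := Pool.Agent.Y687.unique_f hL.1 hg.1 (fun s hs => hL.2 s hs)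
    (fun s hs => hg.2 s hs)
  rw [← hfg]
  exact hf1

theorem fund_core {D : ℤ} (h : Fund D) : Squarefree (core D) := by
  rcases h with ⟨h1, h2⟩ | ⟨m, rfl, h1, h2⟩
  · unfold core
    rw [if_pos (by omega)]
    exact h1
  · unfold core
    rw [if_neg (by omega)]
    have : 4 * m / 4 = m := by omega
    rw [this]
    exact h1

theorem count_eq (P Q : ℤ → Prop) (h : ∀ d, Squarefree d → (P d ↔ Q d)) (X : ℕ) :
    count P X = NS Q X := by
  classical
  unfold count NS
  refine congrArg Finset.card (Finset.ext fun n => ?_)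
  refine (Finset.mem_filter).trans (Iff.trans ?_ (Finset.mem_filter).symm)
  refine and_congr_right fun _ => and_congr_right fun hs => h n hs

theorem countDisc_eq (P Q : ℤ → Prop) (h : ∀ d, Squarefree d → (P d ↔ Q d)) (X : ℕ) :
    countDisc P X = NF Q X := by
  classical
  unfold countDisc NF
  refine congrArg Finset.card (Finset.ext fun n => ?_)
  refine (Finset.mem_filter).trans (Iff.trans ?_ (Finset.mem_filter).symm)
  refine and_congr_right fun _ => and_congr_right fun hs => h _ (fund_core hs)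

theorem hasProd_c2 : HasProd (fun i : ℕ => 1 - (1 / 2 : ℝ) ^ (2 * i + 1)) Pool.Agent.Y703.CQ.c2 := by
  have h : Multipliable fun i : ℕ => 1 + -((1 / 2 : ℝ) ^ (2 * i + 1)) := by
    apply multipliable_one_add_of_summable
    have h1 : Summable fun i : ℕ => (1 / 4 : ℝ) ^ i * (1 / 2) :=
      (summable_geometric_of_lt_one (by norm_num) (by norm_num)).mul_right _
    refine h1.congr fun i => ?_
    rw [norm_neg, Real.norm_of_nonneg (by positivity), pow_succ, pow_mul]
    norm_num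
  have h3 := h.hasProd
  have e : (fun i : ℕ => 1 + -((1 / 2 : ℝ) ^ (2 * i + 1))) =
      fun i : ℕ => 1 - (1 / 2 : ℝ) ^ (2 * i + 1) := by
    funext i
    ring
  rw [e] at h3
  exact h3

theorem result :
    (∀ d : ℤ, Squarefree d → RankZeroShaTwo d → RootPlus d ∧ WeakRankZero d) ∧
    ∃ η : ℝ, HasProd (fun i : ℕ => 1 - (1 / 2 : ℝ) ^ (2 * i + 1)) η ∧ 0.4194 < η ∧ η < 0.4195 ∧
      Tendsto (fun X : ℕ => (count RankZeroShaTwo X : ℝ) / (count (fun _ => True) X : ℝ))
        atTop (nhds (η / 2)) ∧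
      Tendsto (fun X : ℕ => (countDisc RankZeroShaTwo X : ℝ) / (countDisc (fun _ => True) X : ℝ))
        atTop (nhds (η / 2)) ∧
      Tendsto (fun X : ℕ => (count RankZeroShaTwo X : ℝ) / (count RootPlus X : ℝ))
        atTop (nhds η) ∧
      Tendsto (fun X : ℕ => (countDisc RankZeroShaTwo X : ℝ) / (countDisc RootPlus X : ℝ))
        atTop (nhds η) := by
  have e1 := count_eq RankZeroShaTwo (fun d => Rt17 d ∧ G17 d) fun d hs => rank_iff hs
  have e2 := count_eq (fun _ => True) (fun _ => True) fun d _ => Iff.rfl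
  have e3 := countDisc_eq RankZeroShaTwo (fun d => Rt17 d ∧ G17 d) fun d hs => rank_iff hs
  have e4 := countDisc_eq (fun _ => True) (fun _ => True) fun d _ => Iff.rfl
  have e5 := count_eq RootPlus Rt17 fun d _ => Iff.rfl
  have e6 := countDisc_eq RootPlus Rt17 fun d _ => Iff.rfl
  obtain ⟨-, -, -, hb1, hb2⟩ := Pool.Agent.Y948.CQ.t_C2
  have h1 := Pool.Agent.N916.MO.dens17_sf
  refine ⟨fun d hs hR => ⟨((rank_iff hs).1 hR).1, weak hs hR⟩, Pool.Agent.Y703.CQ.c2,
    hasProd_c2, hb1, hb2, ?_, ?_, ?_, ?_⟩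
  · refine h1.congr fun X => ?_
    rw [e1, e2]
  · refine Pool.Agent.N916.MO.dens17_fd.congr fun X => ?_
    rw [e3, e4]
  · have h2 := h1.const_mul 2
    rw [show 2 * (Pool.Agent.Y703.CQ.c2 / 2) = Pool.Agent.Y703.CQ.c2 by ring] at h2
    refine h2.congr fun X => ?_
    rw [e1, e5]
    have h3 := Pool.Agent.N919.BS.NS_half Pool.Agent.N919.BS.root17 X
    have h4 : (NS (fun _ => True) X : ℝ) = 2 * (NS Rt17 X : ℝ) := by
      rw [← h3]
      push_cast
      ring
    rw [h4]
    by_cases h5 : (NS Rt17 X : ℝ) = 0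
    · rw [h5]
      simp
    · field_simp
  · refine Pool.Agent.N969.Den.dens17_root.congr fun X => ?_
    rw [e3, e6]

end Pool.Agent.Results.MP_8b7eba_nt.X017Twists
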