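import Pool.Agent.N969.Lib.C21
import Pool.Agent.N969.WK.Weak

/-!
# The weak conjecture of Birch and Swinnerton-Dyer for all the quadratic twists of `X_0(21)`

`E_d` is the twist of `E : y² = x (x - 9) (x + 7)`, a curve of conductor 21 without complex
multiplication, by the squarefree integer `d`; `d` has any sign and there is no condition on `d`. If
`E_d(ℚ)` is finite and `Ш(E_d/ℚ)` has no element of order two, then every entire function with the Euler
product of `E_d` is different from `0` at `1`, and such a function exists. With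
`η = ∏_{i ≥ 1} (1 - 2^{-i}) = 0.2888...` this holds for `(137/256) η = 15.45...` percent of all `d` and for
`(137/128) η = 30.90...` percent of those with root number `+1` (natural densities, in the orderings by
`|d|` and by the discriminant); for `(4/3) η` in the class of the positive `d = 1 mod 3` which are not `3`,
`5`, `6` modulo `7`. For the negative `d` such that `3` is not split and `7` is not inert in `ℚ(√d)` these
are the `d` for which the class group of `ℚ(√d)` has no element of order four.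

Joint work of helpers 969, 970, 971, 972, 973, 974, 975, 99, 218, 402, 575, 637, 693, 809, 816, 844, 855,
871, 875, 877, 886, 890, 916, 919 and others (the parts are described in
`Results/MP_696deb_nt/Conductor21.lean`; the weak form: helper871).
-/

set_option autoImplicit false

open Finset Filter

namespace Pool.Agent.Results.MP_8b7eba_nt.X021Twists

/-- the coefficient `a` of the twist `E_d : y² = x³ + a x + b` of `y² = x (x - 9) (x + 7)` by `d` -/
def A (d : ℤ) : ℤ := -5211 * d ^ 2

/-- the coefficient `b` of the twist `E_d : y² = x³ + a x + b` of `y² = x (x - 9) (x + 7)` by `d` -/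
def B (d : ℤ) : ℤ := -31050 * d ^ 3

/-- the curve `E_d` over `ℚ` -/
def E (d : ℤ) : WeierstrassCurve ℚ :=
  { a₁ := 0, a₂ := 0, a₃ := 0, a₄ := (A d : ℚ), a₆ := (B d : ℚ) }

/-- `E_d(ℚ)` is finite and `Ш(E_d/ℚ)` has no element of order two -/
def RankZeroShaTwo (d : ℤ) : Prop :=
  Finite (E d).toAffine.Point ∧ ∀ x : Pool.Agent.TH841.SH.D.Sha (E d), 2 • x = 0 → x = 0

/-- the root number of the twist `E_d`, for squarefree `d`: the product of the sign of `d`, of `-1` if
`d` is not `1` modulo `3`, and of `-1` if `d` is `3`, `5` or `6` modulo `7` -/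
def rootNumber (d : ℤ) : ℤ := (if d < 0 then -1 else 1) * (if d % 3 = 1 then 1 else -1) *
  (if d % 7 = 3 ∨ d % 7 = 5 ∨ d % 7 = 6 then -1 else 1)

/-- `f` is an entire function which equals on `Re s > 3 / 2` the Euler product of
`y² = x³ + a x + b` over the primes `p ∤ 2 (4 a³ + 27 b²)`, as in the frozen statement -/
def IsL (a b : ℤ) (f : ℂ → ℂ) : Prop :=
  Differentiable ℂ f ∧ ∀ s : ℂ, (3 : ℝ) / 2 < s.re →
    HasProd
      (fun p : {p : ℕ // p.Prime ∧ ¬ ((p : ℤ) ∣ 2 * (4 * a ^ 3 + 27 * b ^ 2))} =>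
        ((1 : ℂ)
          - ((((p.1 : ℤ) - (Nat.card {q : ZMod p.1 × ZMod p.1 //
                q.2 ^ 2 = q.1 ^ 3 + (a : ZMod p.1) * q.1 + (b : ZMod p.1)} : ℤ)) : ℤ) : ℂ)
              * ((p.1 : ℂ) ^ (-s))
          + (p.1 : ℂ) ^ (1 - 2 * s))⁻¹)
      (f s)

/-- the conclusion of the frozen statement for `E_d`, in the case of rank zero: `E_d` is
nonsingular, its `L`-function exists and does not vanish at `1`, and there are finitely many
rational points -/
def WeakRankZero (d : ℤ) : Prop :=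
  4 * A d ^ 3 + 27 * B d ^ 2 ≠ 0 ∧ (∃ f : ℂ → ℂ, IsL (A d) (B d) f) ∧
    (∀ f : ℂ → ℂ, IsL (A d) (B d) f → f 1 ≠ 0) ∧
    {q : ℚ × ℚ | q.2 ^ 2 = q.1 ^ 3 + (A d : ℚ) * q.1 + (B d : ℚ)}.Finite

/-- `ℚ(√d)` is imaginary, `3` is not split and `7` is not inert in it -/
def NegClass (d : ℤ) : Prop := d < 0 ∧ d % 3 ≠ 1 ∧ ¬ (d % 7 = 3 ∨ d % 7 = 5 ∨ d % 7 = 6)

/-- the exceptional class: `d > 0`, `d = 1 mod 3` and `d` is not `3`, `5`, `6` modulo `7` -/
def ExcClass (d : ℤ) : Prop := 0 < d ∧ d % 3 = 1 ∧ ¬ (d % 7 = 3 ∨ d % 7 = 5 ∨ d % 7 = 6)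

/-- the class group of `ℚ(√d)` has no element of order four -/
def NoOrderFour (d : ℤ) : Prop :=
  ∀ (K : Type) [Field K] [NumberField K], Module.finrank ℚ K = 2 →
    (∃ s : K, s ^ 2 = (d : K)) →
    ∀ c : ClassGroup (NumberField.RingOfIntegers K), c ^ 4 = 1 → c ^ 2 = 1

/-- `D` is a fundamental discriminant (`1` included) -/
def Fund (D : ℤ) : Prop := (Squarefree D ∧ D % 4 = 1) ∨
  ∃ m : ℤ, D = 4 * m ∧ Squarefree m ∧ (m % 4 = 2 ∨ m % 4 = 3)

/-- the squarefree integer `d` with `ℚ(√d) = ℚ(√D)` -/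
def core (D : ℤ) : ℤ := if D % 2 = 1 then D else D / 4

open Classical in
/-- the number of the squarefree integers `d`, `|d| ≤ X`, with the property `P` -/
noncomputable def count (P : ℤ → Prop) (X : ℕ) : ℕ :=
  ((Icc (-(X : ℤ)) X).filter fun d => Squarefree d ∧ P d).card

open Classical in
/-- the number of the fundamental discriminants `D`, `|D| ≤ X`, for which `core D` has the
property `P` -/
noncomputable def countDisc (P : ℤ → Prop) (X : ℕ) : ℕ :=
  ((Icc (-(X : ℤ)) X).filter fun D => Fund D ∧ P (core D)).card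

theorem weak {d : ℤ} (hs : Squarefree d) (hR : RankZeroShaTwo d) : WeakRankZero d := by
  have h1 := Pool.Agent.N973.P21G.rank21 hs ((Pool.Agent.N969.Lib.C21.rank_eq d).1 hR)
  exact Pool.Agent.N969.WK.weak (by
    have e : 4 * (A d) ^ 3 + 27 * (B d) ^ 2 = -539978068224 * d ^ 6 := by
      unfold A B
      ring
    exact e.trans_ne (mul_ne_zero (by norm_num) (pow_ne_zero 6 hs.ne_zero))) h1 hR.1

theorem result :
    (∀ d : ℤ, Squarefree d → RankZeroShaTwo d → rootNumber d = 1 ∧ WeakRankZero d) ∧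
    (∃ η : ℝ, HasProd (fun i : ℕ => 1 - (1 / 2 : ℝ) ^ (i + 1)) η ∧ 0.2887 < η ∧ η < 0.2889 ∧
      Tendsto (fun X : ℕ => (count RankZeroShaTwo X : ℝ) / (count (fun _ => True) X : ℝ))
        atTop (nhds (137 / 256 * η)) ∧
      Tendsto (fun X : ℕ => (countDisc RankZeroShaTwo X : ℝ) / (countDisc (fun _ => True) X : ℝ))
        atTop (nhds (137 / 256 * η)) ∧
      Tendsto (fun X : ℕ => (count RankZeroShaTwo X : ℝ) /
        (count (fun d => rootNumber d = 1) X : ℝ)) atTop (nhds (137 / 128 * η)) ∧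
      Tendsto (fun X : ℕ => (countDisc RankZeroShaTwo X : ℝ) /
        (countDisc (fun d => rootNumber d = 1) X : ℝ)) atTop (nhds (137 / 128 * η)) ∧
      Tendsto (fun X : ℕ => (count (fun d => ExcClass d ∧ RankZeroShaTwo d) X : ℝ) /
        (count ExcClass X : ℝ)) atTop (nhds (4 / 3 * η)) ∧
      Tendsto (fun X : ℕ => (countDisc (fun d => ExcClass d ∧ RankZeroShaTwo d) X : ℝ) /
        (countDisc ExcClass X : ℝ)) atTop (nhds (4 / 3 * η)) ∧
      Tendsto (fun X : ℕ => (countDisc (fun d => NegClass d ∧ RankZeroShaTwo d) X : ℝ) /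
        (countDisc NegClass X : ℝ)) atTop (nhds η)) ∧
    ∀ d : ℤ, Squarefree d → NegClass d → (RankZeroShaTwo d ↔ NoOrderFour d) := by
  obtain ⟨h1, h2, h3⟩ := Pool.Agent.N969.Lib.C21.result
  exact ⟨fun d hs hR => ⟨(h1 d hs hR).1, weak hs hR⟩, h2, h3⟩

end Pool.Agent.Results.MP_8b7eba_nt.X021Twists
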